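import Pool.Agent.Y272.LC.Stm2
import Pool.Agent.Helper114.MontelSol

/-!
# Project LC (helper272): passage to the limit of inverse branches (job PU0)
-/

set_option autoImplicit false

open Complex Filter Topology Metric Set MeasureTheory

namespace Pool.Agent.Y51.LC

open Pool.Agent.H712R2 Pool.Agent.H713R2 Pool.Agent.H713R2.AR Pool.Agent.W677.Mar Pool.Agent.Y272.TY
open Pool.Agent.Y272.LC

/-- joint continuity of the iterates -/
lemma cont_iter (d n : ℕ) : Continuous fun q : ℂ × ℂ => (fc d q.1)^[n] q.2 := by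
  induction n with
  | zero => exact continuous_snd
  | succ n ih =>
    have h : (fun q : ℂ × ℂ => (fc d q.1)^[n + 1] q.2) =
        fun q => ((fc d q.1)^[n] q.2) ^ d + q.1 := by
      funext q
      rw [Function.iterate_succ_apply']
      rfl
    rw [h]
    exact (ih.pow d).add continuous_fst

/-- outside a large ball the iterates do not become smaller -/
lemma iter_big {d : ℕ} (hd : 2 ≤ d) {c : ℂ} {A R : ℝ} (hc : ‖c‖ ≤ A) (h2 : 2 ≤ R) (hA : A ≤ R)
    (n : ℕ) (u : ℂ) (hu : R < ‖u‖) : R < ‖(fc d c)^[n] u‖ := by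
  induction n generalizing u with
  | zero => exact hu
  | succ n ih =>
    rw [Function.iterate_succ_apply]
    apply ih
    have h1 : ‖u‖ ^ 2 ≤ ‖u‖ ^ d := pow_le_pow_right₀ (by linarith) hd
    have h3 : ‖u ^ d‖ ≤ ‖fc d c u‖ + ‖c‖ := by
      have h4 : u ^ d = fc d c u - c := by simp [fc]
      rw [h4]
      exact norm_sub_le _ _
    rw [norm_pow] at h3
    nlinarith

/-- PU0 -/
theorem t : St_Pu0 := by
  intro d hd c0 w δ n hδ hw hf
  obtain ⟨c, hc, hP⟩ := exists_seq_forall_of_frequently hf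
  choose h hdiff hinv hval using hP
  obtain ⟨A, hA⟩ := hc.norm.bddAbove_range
  have hA' : ∀ j, ‖c j‖ ≤ A := fun j => hA ⟨j, rfl⟩
  set R : ℝ := max (max 2 A) (‖w‖ + δ) with hR
  have h2R : 2 ≤ R := (le_max_left _ _).trans (le_max_left _ _)
  have hAR : A ≤ R := (le_max_right _ _).trans (le_max_left _ _)
  have hwR : ‖w‖ + δ ≤ R := le_max_right _ _
  have hbd : ∀ j, ∀ z ∈ ball w δ, ‖h j z‖ ≤ R := by
    intro j z hz
    by_contra hcon
    have h1 := iter_big hd (hA' j) h2R hAR n (h j z) (not_le.1 hcon)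
    rw [hinv j z hz] at h1
    have h3 : ‖z‖ ≤ ‖w‖ + δ := by
      have h4 : ‖z - w‖ < δ := by rwa [mem_ball, dist_eq_norm] at hz
      have h5 := norm_add_le w (z - w)
      rw [add_sub_cancel] at h5
      linarith
    linarith
  obtain ⟨𝒰, h𝒰⟩ : ∃ 𝒰 : Ultrafilter ℕ, (𝒰 : Filter ℕ) ≤ atTop := Ultrafilter.exists_le atTop
  obtain ⟨Φ, hΦd, hΦ⟩ := Pool.Agent.Helper114.Montel.montel isOpen_ball h hdiff R hbd 𝒰
  have hc' : Tendsto c 𝒰 (𝓝 c0) := hc.mono_left h𝒰
  refine ⟨Φ, hΦd, fun z hz => ?_, ?_⟩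
  · have h1 : Tendsto (fun j => h j z) 𝒰 (𝓝 (Φ z)) := hΦ.tendsto_at hz
    have h3 : Tendsto (fun j => (fc d (c j))^[n] (h j z)) 𝒰 (𝓝 ((fc d c0)^[n] (Φ z))) :=
      ((cont_iter d n).tendsto (c0, Φ z)).comp (hc'.prodMk_nhds h1)
    have h4 : (fun j => (fc d (c j))^[n] (h j z)) = fun _ => z := by
      funext j
      exact hinv j z hz
    rw [h4] at h3
    exact (tendsto_nhds_unique h3 tendsto_const_nhds)
  · have h1 : Tendsto (fun j => (fc d (c j))^[n] (c j)) 𝒰 (𝓝 ((fc d c0)^[n] c0)) :=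
      ((cont_iter d n).tendsto (c0, c0)).comp (hc'.prodMk_nhds hc')
    have h3 : Tendsto (fun j => (fc d (c j))^[n] (c j)) 𝒰 (𝓝[ball w δ] ((fc d c0)^[n] c0)) :=
      tendsto_nhdsWithin_iff.2 ⟨h1, h1.eventually (isOpen_ball.mem_nhds hw)⟩
    have h4 := hΦ.tendsto_comp (hΦd.continuousOn _ hw) hw h3
    have h5 : (fun j => h j ((fc d (c j))^[n] (c j))) = c := by
      funext j
      exact hval j
    rw [h5] at h4
    exact tendsto_nhds_unique h4 hc'

end Pool.Agent.Y51.LC
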